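import Mathlib
import Pool.Agent.H.MP_bbbdfa_lc.A

set_option autoImplicit false

namespace Pool.Agent.Results.MP_d02fb9_lc.BD

open Cardinal Pool.Agent.H.MP_bbbdfa_lc

theorem result (e : bb = dd) (X : Type) [TopologicalSpace X] [T3Space X] (h : SSM X) (D : Set X)
    (c : IsClosed D) (d : DiscreteTopology D) : #D < dd :=
  men e h c d

end Pool.Agent.Results.MP_d02fb9_lc.BD
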